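import Pool.Agent.Helper65.EV.St

/-!
# Project EV, module NR
-/

set_option autoImplicit false

open MeasureTheory ProbabilityTheory Set Filter
open scoped ENNReal Topology

namespace Pool.Agent.Helper84.EV

open Pool.Agent.Helper65.EV Pool.Agent.Helper84.Eve

universe u

private lemma q_mul (q T : ℕ) (hq : 0 < q) (c : ℝ≥0∞) :
    ((T * q : ℕ) : ℝ≥0∞) * (ENNReal.ofReal (1 / (q : ℝ)) * c) = T * c := by
  have hq0 : (0 : ℝ) < q := by exact_mod_cast hq
  rw [← mul_assoc]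
  congr 1
  rw [← ENNReal.ofReal_natCast, ← ENNReal.ofReal_mul (by positivity), ← ENNReal.ofReal_natCast T]
  congr 1
  push_cast
  field_simp

/-- the estimate on a grid -/
private lemma grid (h1 : hDI) (h2 : hTA) (h3 : hRH) (h4 : hINF.{u}) (h5 : hPATH)
    {Λ : Measure ℝ} (hr : DustRegime Λ) (hL1 : Λ {1} = 0) (a : ℕ) (ε H : ℝ≥0∞) (hH : H ≠ 0)
    (J : ℕ) (t b : ℕ → ℕ) (s : ℕ → ℝ) (ht : Monotone t) (ht0 : t 0 = 0)
    (hs : ∀ j, 0 < s j ∧ s j ≤ Real.log (b j + 1))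
    (hε : ∀ j < J, (ENNReal.ofReal (Real.log (a + 1)) + t (j + 1) * AA Λ (s j)) /
      ENNReal.ofReal (s j) ≤ ε)
    (hHs : H ≤ ∑ j ∈ Finset.range J, ((t (j + 1) - t j : ℕ) : ℝ≥0∞) * phi Λ (b j))
    {Ω : Type u} [MeasurableSpace Ω] {P : Measure Ω} [IsProbabilityMeasure P] (L : Lookdown P Λ)
    (n : ℕ) (hn : ∀ j < J, b j < n) (q : ℕ) (hq : 0 < q) :
    P {ω | ∀ t, 0 ≤ t → ∀ i j, L.ξ t i ω = L.ξ 0 a ω → L.ξ t j ω = L.ξ 0 a ω → i = j} ≤
      (2 * ε + 2 / (ENNReal.ofReal (Real.exp (-(1 / (q : ℝ) *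
        (wS Λ n {K | K.Nonempty}).toReal))) * H)) +
      (t J * q : ℕ) * (ENNReal.ofReal (1 / (q : ℝ)) * wS Λ n {K | K.Nonempty}) ^ 2 := by
  have := hr.finite
  have hf := wS_ne_top hr.supp hr.m1_ne_top n
  have hq0 : (0 : ℝ) < q := by exact_mod_cast hq
  set h : ℝ := 1 / (q : ℝ) with hh
  have hh0 : 0 ≤ h := by positivity
  set S0 : Set Ω := {ω | ∀ t, 0 ≤ t → ∀ i j, L.ξ t i ω = L.ξ 0 a ω →
    L.ξ t j ω = L.ξ 0 a ω → i = j} with hS0
  set D : Set Ω := {ω | DynOK (L.N ω) (fun t i => L.ξ t i ω) ∧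
    (∀ i j, L.ξ 0 i ω = L.ξ 0 j ω → i = j) ∧ GoodA (L.N ω) ∧
    ∀ e ∈ L.N ω, {j | Part e j}.Infinite} with hD
  have hDc : P Dᶜ = 0 := by
    have : ∀ᵐ ω ∂P, ω ∈ D := by
      filter_upwards [L.ae_dyn, L.ae_distinct, ae_goodA L.poisson hr.supp hr.m1_ne_top,
        h4 hr L] with ω h1 h2 h3 h4 using ⟨h1, h2, h3, h4⟩
    exact this
  have hmain : P (S0 ∩ D) ≤ wsum (wt Λ n h) n (t J * q) ({l | nrep l a}.indicator 1) +
      (t J * q : ℕ) * (ENNReal.ofReal h * wS Λ n {K | K.Nonempty}) ^ 2 := by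
    apply grid_bound L.poisson n _ hf hh0
    rintro ω ⟨h6, h7, h8, h9, h10⟩ hG
    exact h5 h7 h9 h10 hh0 hG a (fun i hi => h8 i a hi) h6
  have hρ := h3 Λ hr.supp n h
  have hdi := h1 (wt Λ n h) n (rh Λ n h) (sum_wt_le_one n hh0 hf) hρ.2 hρ.1 (fun j => t j * q)
    (fun i j hij => Nat.mul_le_mul_right q (ht hij)) (by simp [ht0]) b J a ε
    (by
      intro j hj
      refine (h2 Λ hr.supp hL1 n (t (j + 1) * q) h (s j) a (b j) hh0 (hs j).1 (hs j).2 hf).trans ?_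
      rw [hh, q_mul q (t (j + 1)) hq]
      exact hε j hj)
    (ENNReal.ofReal (Real.exp (-(h * (wS Λ n {K | K.Nonempty}).toReal))) * H)
    (mul_ne_zero (by
      rw [Ne, ENNReal.ofReal_eq_zero, not_le]
      exact Real.exp_pos _) hH)
    (by
      calc ENNReal.ofReal (Real.exp (-(h * (wS Λ n {K | K.Nonempty}).toReal))) * H
          ≤ ENNReal.ofReal (Real.exp (-(h * (wS Λ n {K | K.Nonempty}).toReal))) *
            ∑ j ∈ Finset.range J, ((t (j + 1) - t j : ℕ) : ℝ≥0∞) * phi Λ (b j) := by gcongr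
        _ = ∑ j ∈ Finset.range J, ((t (j + 1) * q - t j * q : ℕ) : ℝ≥0∞) * rh Λ n h (b j) := by
            rw [Finset.mul_sum]
            refine Finset.sum_congr rfl fun j hj => ?_
            unfold rh
            rw [if_pos (hn j (Finset.mem_range.1 hj)), ← Nat.sub_mul,
              mul_left_comm, mul_left_comm (((t (j + 1) - t j) * q : ℕ) : ℝ≥0∞), hh,
              q_mul q _ hq, mul_left_comm]
        _ ≤ _ := le_rfl)
  calc P S0 ≤ P ((S0 ∩ D) ∪ Dᶜ) := measure_mono (by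
        intro ω hω
        by_cases h6 : ω ∈ D
        · left; exact ⟨hω, h6⟩
        · right; exact h6)
    _ ≤ P (S0 ∩ D) + P Dᶜ := measure_union_le _ _
    _ = P (S0 ∩ D) := by rw [hDc, add_zero]
    _ ≤ _ := hmain
    _ ≤ _ := by gcongr

theorem hNR (h1 : hDI) (h2 : hTA) (h3 : hRH) (h4 : hINF.{u}) (h5 : hPATH) : hNR.{u} := by
  intro Λ hr hL1 a ε H hH hHt J t b s ht ht0 hs hε hHs Ω _ P _ L
  set n : ℕ := (Finset.range J).sup b + 1 with hn
  have hbn : ∀ j < J, b j < n := by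
    intro j hj
    have := Finset.le_sup (f := b) (Finset.mem_range.2 hj)
    omega
  have hf := wS_ne_top hr.supp hr.m1_ne_top n
  set M := wS Λ n {K | K.Nonempty} with hM
  have hl1 : Tendsto (fun q : ℕ => ENNReal.ofReal (Real.exp (-(1 / (q : ℝ) * M.toReal))) * H)
      atTop (𝓝 H) := by
    have e1 : Tendsto (fun q : ℕ => Real.exp (-(1 / (q : ℝ) * M.toReal))) atTop (𝓝 1) := by
      have e2 : Tendsto (fun q : ℕ => -(1 / (q : ℝ) * M.toReal)) atTop (𝓝 0) := by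
        have e3 := (tendsto_one_div_atTop_nhds_zero_nat (𝕜 := ℝ)).mul_const M.toReal
        rw [zero_mul] at e3
        simpa using e3.neg
      have e4 := (Real.continuous_exp.tendsto 0).comp e2
      rwa [Real.exp_zero] at e4
    have e5 := ENNReal.Tendsto.mul_const (b := H) (ENNReal.tendsto_ofReal e1) (Or.inr hHt)
    rwa [ENNReal.ofReal_one, one_mul] at e5
  have hl2 : Tendsto (fun q : ℕ => 2 / (ENNReal.ofReal (Real.exp (-(1 / (q : ℝ) * M.toReal))) * H))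
      atTop (𝓝 (2 / H)) := ENNReal.Tendsto.const_div hl1 (Or.inl hHt)
  have hl3 : Tendsto (fun q : ℕ => ENNReal.ofReal ((t J : ℝ) / (q : ℝ)) * M ^ 2) atTop (𝓝 0) := by
    have e1 : Tendsto (fun q : ℕ => ENNReal.ofReal ((t J : ℝ) / (q : ℝ))) atTop (𝓝 0) := by
      have := ENNReal.tendsto_ofReal (tendsto_const_div_atTop_nhds_zero_nat (t J : ℝ))
      simpa using this
    have e2 := ENNReal.Tendsto.mul_const (b := M ^ 2) e1 (Or.inr (ENNReal.pow_ne_top hf))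
    rwa [zero_mul] at e2
  have hlim : Tendsto (fun q : ℕ => (2 * ε + 2 / (ENNReal.ofReal (Real.exp (-(1 / (q : ℝ) *
      M.toReal))) * H)) + ENNReal.ofReal ((t J : ℝ) / (q : ℝ)) * M ^ 2) atTop
      (𝓝 (2 * ε + 2 / H)) := by
    have := (hl2.const_add (2 * ε)).add hl3
    rwa [add_zero] at this
  apply ge_of_tendsto hlim
  filter_upwards [eventually_gt_atTop 0] with q hq
  refine (grid h1 h2 h3 h4 h5 hr hL1 a ε H hH J t b s ht ht0 hs hε hHs L n hbn q hq).trans ?_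
  refine add_le_add le_rfl (le_of_eq ?_)
  have hq0 : (0 : ℝ) < q := by exact_mod_cast hq
  rw [mul_pow, ← mul_assoc, ← ENNReal.ofReal_pow (by positivity), ← ENNReal.ofReal_natCast,
    ← ENNReal.ofReal_mul (by positivity)]
  congr 2
  push_cast
  field_simp

end Pool.Agent.Helper84.EV
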